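import Pool.Agent.K3h83.IN.Stm6
import Pool.Agent.K3h69.IN.M4a

/-!
# Extension of irreducible representations over cyclic quotients, in characteristic `p`

Brick E4 for `Pool.Agent.K3h83.IN.Stm6` (and general lemmas, for every algebraically closed field).
-/

set_option autoImplicit false

open scoped BigOperators Classical Pointwise

noncomputable section

namespace Pool.Agent.K3h66.CY

open Pool.Agent.K3h83.IN

/-! ### group part -/

section grp

variable {B E : Type} [Group B] [Group E]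

/-- the pairs `(t, e)` such that `t` normalizes `N` and `e` implements the conjugation with `t` -/
def Gp (N : Subgroup B) (ν : N →* E) : Subgroup (B × E) where
  carrier := {a | (∀ n, n ∈ N ↔ a.1 * n * a.1⁻¹ ∈ N) ∧
    ∀ n n' : N, (n' : B) = a.1 * n * a.1⁻¹ → a.2 * ν n * a.2⁻¹ = ν n'}
  one_mem' := by
    refine ⟨fun n => by simp, fun n n' h => ?_⟩
    have : n' = n := by
      apply Subtype.ext
      simpa using h
    subst this
    simp
  mul_mem' := by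
    rintro ⟨t, e⟩ ⟨s, f⟩ ⟨h1, h2⟩ ⟨h3, h4⟩
    refine ⟨fun n => ?_, fun n n' h => ?_⟩
    · have e1 : (t * s) * n * (t * s)⁻¹ = t * (s * n * s⁻¹) * t⁻¹ := by group
      change n ∈ N ↔ (t * s) * n * (t * s)⁻¹ ∈ N
      rw [e1, ← h1, ← h3]
    · have hm : s * n * s⁻¹ ∈ N := (h3 n).1 n.2
      have e1 : (n' : B) = t * (s * n * s⁻¹) * t⁻¹ := by
        change (n' : B) = (t * s) * n * (t * s)⁻¹ at h
        rw [h]
        group
      have e2 := h4 n ⟨s * n * s⁻¹, hm⟩ rfl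
      have e3 := h2 ⟨s * n * s⁻¹, hm⟩ n' e1
      change (e * f) * ν n * (e * f)⁻¹ = ν n'
      rw [← e3, ← e2]
      group
  inv_mem' := by
    rintro ⟨t, e⟩ ⟨h1, h2⟩
    refine ⟨fun n => ?_, fun n n' h => ?_⟩
    · change n ∈ N ↔ t⁻¹ * n * t⁻¹⁻¹ ∈ N
      rw [h1 (t⁻¹ * n * t⁻¹⁻¹)]
      have : t * (t⁻¹ * n * t⁻¹⁻¹) * t⁻¹ = n := by group
      change n ∈ N ↔ t * (t⁻¹ * n * t⁻¹⁻¹) * t⁻¹ ∈ N
      rw [this]
    · change (n' : B) = t⁻¹ * n * t⁻¹⁻¹ at h
      have e1 : (n : B) = t * n' * t⁻¹ := by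
        rw [h]
        group
      have e2 := h2 n' n e1
      change e⁻¹ * ν n * e⁻¹⁻¹ = ν n'
      rw [← e2]
      group

theorem mem_Gp {N : Subgroup B} {ν : N →* E} {t : B} {e : E} :
    (t, e) ∈ Gp N ν ↔ (∀ n, n ∈ N ↔ t * n * t⁻¹ ∈ N) ∧
      ∀ n n' : N, (n' : B) = t * n * t⁻¹ → e * ν n * e⁻¹ = ν n' := Iff.rfl

theorem self_mem {N : Subgroup B} {ν : N →* E} (n : N) : ((n : B), ν n) ∈ Gp N ν := by
  refine ⟨fun m => ?_, fun m m' h => ?_⟩
  · change m ∈ N ↔ (n : B) * m * (n : B)⁻¹ ∈ N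
    rw [N.mul_mem_cancel_right (N.inv_mem n.2), N.mul_mem_cancel_left n.2]
  · change (m' : B) = n * m * (n : B)⁻¹ at h
    have : m' = n * m * n⁻¹ := Subtype.ext h
    rw [this, map_mul, map_mul, map_inv]

/-- extension of a homomorphism to a subgroup generated by `N` and one element -/
theorem ext_gp (N M : Subgroup B) (ν : N →* E) (t₀ : B) (a : E) (ha : (t₀, a) ∈ Gp N ν)
    (hgen : ∀ t ∈ M, ∃ (n : N) (i : ℤ), t = n * t₀ ^ i)
    (hk : ∀ (n : N) (i : ℤ), (n : B) = t₀ ^ i → ν n = a ^ i) :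
    ∃ ν' : M →* E, (∀ (n : N) (m : M), (m : B) = n → ν' m = ν n) ∧
      ∀ m : M, ((m : B), ν' m) ∈ Gp N ν := by
  have huniq : ∀ (n m : N) (i j : ℤ), (n : B) * t₀ ^ i = m * t₀ ^ j → ν n * a ^ i = ν m * a ^ j := by
    intro n m i j h
    have h1 : ((m⁻¹ * n : N) : B) = t₀ ^ (j - i) := by
      rw [zpow_sub, Subgroup.coe_mul, Subgroup.coe_inv]
      calc (m : B)⁻¹ * n = (m : B)⁻¹ * (n * t₀ ^ i) * (t₀ ^ i)⁻¹ := by group
        _ = (m : B)⁻¹ * (m * t₀ ^ j) * (t₀ ^ i)⁻¹ := by rw [h]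
        _ = t₀ ^ j * (t₀ ^ i)⁻¹ := by group
    have h2 := hk _ _ h1
    rw [map_mul, map_inv, zpow_sub] at h2
    calc ν n * a ^ i = ν m * ((ν m)⁻¹ * ν n) * a ^ i := by group
      _ = ν m * (a ^ j * (a ^ i)⁻¹) * a ^ i := by rw [h2]
      _ = ν m * a ^ j := by group
  choose n i hni using fun t : M => hgen t t.2
  have hspec : ∀ (t : M) (m : N) (j : ℤ), (t : B) = m * t₀ ^ j → ν (n t) * a ^ (i t) = ν m * a ^ j :=
    fun t m j h => huniq _ _ _ _ (by rw [← hni t, h])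
  have hpow : ∀ k : ℤ, (t₀ ^ k, a ^ k) ∈ Gp N ν := fun k => by
    have := (Gp N ν).zpow_mem ha k
    simpa using this
  refine ⟨MonoidHom.mk' (fun t => ν (n t) * a ^ (i t)) fun t s => ?_, fun m t h => ?_, fun t => ?_⟩
  · obtain ⟨h1, h2⟩ := mem_Gp.1 (hpow (i t))
    have hm := (h1 (n s)).1 (n s).2
    have e1 := h2 (n s) ⟨_, hm⟩ rfl
    rw [hspec (t * s) (n t * ⟨t₀ ^ (i t) * (n s : B) * (t₀ ^ (i t))⁻¹, hm⟩) (i t + i s) ?_]
    · rw [map_mul, ← e1, zpow_add]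
      group
    · rw [Subgroup.coe_mul, Subgroup.coe_mul, zpow_add]
      conv_lhs => rw [hni t, hni s]
      group
  · change ν (n t) * a ^ (i t) = ν m
    rw [hspec t m 0 (by rw [h]; simp)]
    simp
  · change ((t : B), ν (n t) * a ^ (i t)) ∈ Gp N ν
    have h1 := (Gp N ν).mul_mem (self_mem (ν := ν) (n t)) (hpow (i t))
    have h2 : ((n t : B), ν (n t)) * (t₀ ^ (i t), a ^ (i t)) = ((t : B), ν (n t) * a ^ (i t)) := by
      rw [Prod.mk_mul_mk, ← hni t]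
    rwa [h2] at h1

end grp

/-! ### scalars -/

section scal

variable {F U : Type} [Field F] [AddCommGroup U] [Module F U]

/-- scalars -/
def sc : Fˣ →* (U ≃ₗ[F] U) := DistribMulAction.toModuleAut F U

theorem sc_apply (c : Fˣ) (v : U) : (sc c : U ≃ₗ[F] U) v = (c : F) • v := rfl

theorem sc_comm (c : Fˣ) (T : U ≃ₗ[F] U) : sc c * T = T * sc c := by
  ext v
  change (c : F) • T v = T ((c : F) • v)
  rw [map_smul]

theorem sc_inj [Nontrivial U] (c : Fˣ) (h : (sc c : U ≃ₗ[F] U) = 1) : c = 1 := by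
  obtain ⟨v, hv⟩ := exists_ne (0 : U)
  have := congrArg (fun T : U ≃ₗ[F] U => T v) h
  have h1 : (c : F) • v = v := this
  ext
  have h2 : ((c : F) - 1) • v = 0 := by rw [sub_smul, h1, one_smul, sub_self]
  rcases smul_eq_zero.1 h2 with h3 | h3
  · rw [sub_eq_zero] at h3
    simpa using h3
  · exact absurd h3 hv

theorem sc_pow (c : Fˣ) (T : U ≃ₗ[F] U) (k : ℕ) : (sc c * T) ^ k = sc (c ^ k) * T ^ k := by
  rw [(show Commute (sc c) T from sc_comm c T).mul_pow, map_pow]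

variable {B : Type} [Group B]

/-- multiplication with a scalar keeps implementing operators -/
theorem sc_mem {N : Subgroup B} {ν : N →* (U ≃ₗ[F] U)} (c : Fˣ) :
    ((1 : B), (sc c : U ≃ₗ[F] U)) ∈ Gp N ν := by
  refine ⟨fun n => by simp, fun n n' h => ?_⟩
  have : n' = n := by
    apply Subtype.ext
    simpa using h
  subst this
  change sc c * ν n' * (sc c)⁻¹ = ν n'
  rw [sc_comm]
  group

/-- extension over one more element, scaling the implementing operator -/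
theorem ext_step [IsAlgClosed F] [Finite B] (N M : Subgroup B) (ν : N →* (U ≃ₗ[F] U))
    (hsch : ∀ e, ((1 : B), e) ∈ Gp N ν → ∃ c : Fˣ, e = sc c) (t₀ : B) (A : U ≃ₗ[F] U)
    (hA : (t₀, A) ∈ Gp N ν) (hgen : ∀ t ∈ M, ∃ (n : N) (i : ℤ), t = n * t₀ ^ i) :
    ∃ ν' : M →* (U ≃ₗ[F] U), (∀ (n : N) (m : M), (m : B) = n → ν' m = ν n) ∧
      ∀ m : M, ((m : B), ν' m) ∈ Gp N ν := by
  -- the least exponent
  have hex : ∃ d : ℕ, 0 < d ∧ t₀ ^ d ∈ N := ⟨orderOf t₀, orderOf_pos t₀, by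
    rw [pow_orderOf_eq_one]; exact N.one_mem⟩
  set d := Nat.find hex with hd
  obtain ⟨hd0, hdN⟩ : 0 < d ∧ t₀ ^ d ∈ N := Nat.find_spec hex
  have hmin : ∀ k : ℕ, 0 < k → t₀ ^ k ∈ N → d ≤ k := fun k h1 h2 => Nat.find_min' hex ⟨h1, h2⟩
  have hdvd : ∀ i : ℤ, t₀ ^ i ∈ N → (d : ℤ) ∣ i := by
    intro i hi
    have hd' : (d : ℤ) ≠ 0 := by exact_mod_cast hd0.ne'
    have h1 : 0 ≤ i % d := Int.emod_nonneg _ hd'
    have h2 : i % d < d := Int.emod_lt_of_pos _ (by exact_mod_cast hd0)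
    rw [Int.dvd_iff_emod_eq_zero]
    by_contra hne
    obtain ⟨k, hk⟩ := Int.eq_ofNat_of_zero_le h1
    have h3 : t₀ ^ k ∈ N := by
      have h4 : i % d = i - d * (i / d) := Int.emod_def i d
      have h5 : t₀ ^ (k : ℤ) ∈ N := by
        rw [← hk, h4, zpow_sub, zpow_mul, zpow_natCast]
        exact N.mul_mem hi (N.inv_mem (N.zpow_mem hdN _))
      rwa [zpow_natCast] at h5
    have h6 := hmin k (by
      rcases Nat.eq_zero_or_pos k with h0 | h0
      · subst h0; exact absurd (by simpa using hk) hne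
      · exact h0) h3
    rw [hk] at h2
    have : k < d := by exact_mod_cast h2
    omega
  set n₀ : N := ⟨t₀ ^ d, hdN⟩ with hn₀
  -- the scalar
  have h1 : ((1 : B), (ν n₀)⁻¹ * A ^ d) ∈ Gp N ν := by
    have h2 := (Gp N ν).mul_mem ((Gp N ν).inv_mem (self_mem (ν := ν) n₀)) ((Gp N ν).pow_mem hA d)
    have h3 : ((n₀ : B), ν n₀)⁻¹ * (t₀, A) ^ d = ((1 : B), (ν n₀)⁻¹ * A ^ d) := by
      ext1
      · simp [hn₀]
      · simp
    rwa [h3] at h2
  obtain ⟨c, hc⟩ := hsch _ h1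
  have hc' : A ^ d = ν n₀ * sc c := by rw [← hc]; group
  obtain ⟨r, hr⟩ := IsAlgClosed.exists_pow_nat_eq ((c⁻¹ : Fˣ) : F) hd0
  have hr0 : r ≠ 0 := by
    rintro rfl
    rw [zero_pow hd0.ne'] at hr
    exact Units.ne_zero _ hr.symm
  set u : Fˣ := Units.mk0 r hr0 with hu
  have hud : u ^ d = c⁻¹ := by
    ext
    rw [Units.val_pow_eq_pow_val, hu, Units.val_mk0, hr]
  have had : (sc u * A) ^ d = ν n₀ := by
    rw [sc_pow, hud, hc', sc_comm, mul_assoc, ← map_mul, mul_inv_cancel, map_one, mul_one]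
  have hmem : (t₀, sc u * A) ∈ Gp N ν := by
    have := (Gp N ν).mul_mem (sc_mem (ν := ν) u) hA
    simpa using this
  refine ext_gp N M ν t₀ (sc u * A) hmem hgen fun n i hni => ?_
  obtain ⟨l, hl⟩ := hdvd i (by rw [← hni]; exact n.2)
  have h4 : n = n₀ ^ l := by
    apply Subtype.ext
    rw [hni, hl, zpow_mul, zpow_natCast]
    rfl
  rw [h4, map_zpow, hl, zpow_mul, zpow_natCast, had]

end scal

/-! ### the case of a cyclic group of order `q`, a power of the characteristic -/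

theorem root_one {F : Type} [Field F] (p : ℕ) [Fact p.Prime] [CharP F p] (k : ℕ) (c : Fˣ)
    (h : c ^ (p ^ k) = 1) : c = 1 := by
  ext
  have h1 : (c : F) ^ (p ^ k) = 1 := by
    rw [← Units.val_pow_eq_pow_val, h, Units.val_one]
  have : ExpChar F p := ExpChar.prime Fact.out
  have h2 : iterateFrobenius F p k (c : F) = iterateFrobenius F p k 1 := by
    rw [iterateFrobenius_def, map_one, h1]
  rw [Units.val_one]
  exact iterateFrobenius_inj F p k h2

section main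

variable {F U : Type} [Field F] [AddCommGroup U] [Module F U]

/-- a representation as a homomorphism to the group of automorphisms -/
def re {G : Type} [Group G] (μ : Representation F G U) : G →* (U ≃ₗ[F] U) :=
  (LinearMap.GeneralLinearGroup.generalLinearEquiv F U).toMonoidHom.comp μ.toHomUnits

theorem re_apply {G : Type} [Group G] (μ : Representation F G U) (g : G) (u : U) :
    re μ g u = μ g u := rfl

theorem irr_nt {G : Type} [Group G] (μ : Representation F G U) (hi : μ.IsIrreducible) :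
    Nontrivial U := by
  by_contra hn
  rw [not_nontrivial_iff_subsingleton] at hn
  have := hi.toNontrivial
  obtain ⟨x, y, hxy⟩ := this
  apply hxy
  apply Subrepresentation.toSubmodule_injective
  exact Subsingleton.elim _ _

theorem mem_Gp_re {B : Type} [Group B] {H : Subgroup B} [hn : H.Normal] (μ : Representation F H U)
    (b : B) (A : U ≃ₗ[F] U) : (b, A) ∈ Gp H (re μ) ↔
      ∀ (h h' : H) (u : U), b * h * b⁻¹ = h' → A (μ h u) = μ h' (A u) := by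
  rw [mem_Gp]
  constructor
  · rintro ⟨-, h2⟩ h h' u hh
    have h3 := h2 h h' hh.symm
    have h4 : A * re μ h = re μ h' * A := by
      rw [← h3]
      group
    exact congrArg (fun T : U ≃ₗ[F] U => T u) h4
  · intro h1
    refine ⟨fun n => ?_, fun n n' hh => ?_⟩
    · constructor
      · intro h
        exact hn.conj_mem n h b
      · intro h
        have := hn.conj_mem _ h b⁻¹
        have e1 : b⁻¹ * (b * n * b⁻¹) * b⁻¹⁻¹ = n := by group
        rwa [e1] at this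
    · rw [mul_inv_eq_iff_eq_mul]
      ext u
      exact h1 n n' u hh.symm

theorem schur_Gp [IsAlgClosed F] [FiniteDimensional F U] {B : Type} [Group B] {H : Subgroup B}
    [H.Normal] (μ : Representation F H U) (hi : μ.IsIrreducible) (e : U ≃ₗ[F] U)
    (h : ((1 : B), e) ∈ Gp H (re μ)) : ∃ c : Fˣ, e = sc c := by
  have := irr_nt μ hi
  rw [mem_Gp_re] at h
  obtain ⟨c, hc⟩ := Pool.Agent.K3h69.IN.schurF μ hi (e : U →ₗ[F] U) fun g v => h g g v (by group)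
  have hc' : ∀ v, e v = c • v := hc
  have hc0 : c ≠ 0 := by
    rintro rfl
    obtain ⟨v, hv⟩ := exists_ne (0 : U)
    apply hv
    apply e.injective
    rw [hc', zero_smul, map_zero]
  refine ⟨Units.mk0 c hc0, ?_⟩
  ext v
  rw [hc', sc_apply]
  rfl

theorem t_E4 : E4 := by
  intro p _ F _ _ _ B _ _ Q P H hL U _ _ _ μ hi
  have hnt := irr_nt μ hi
  have hHn : H.Normal := hL.nH
  have hQn : Q.Normal := hL.nQ
  set ν : H →* (U ≃ₗ[F] U) := re μ with hν
  have hsch : ∀ e, ((1 : B), e) ∈ Gp H ν → ∃ c : Fˣ, e = sc c := schur_Gp μ hi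
  let S : Subgroup B := (Gp H ν).map (MonoidHom.fst B _)
  have hS : ∀ b, b ∈ S ↔ ∃ A, (b, A) ∈ Gp H ν := by
    intro b
    constructor
    · rintro ⟨⟨b', A⟩, h, rfl⟩
      exact ⟨A, h⟩
    · rintro ⟨A, h⟩
      exact ⟨(b, A), h, rfl⟩
  have hHS : H ≤ S := fun h hh => (hS h).2 ⟨_, self_mem (ν := ν) ⟨h, hh⟩⟩
  -- the action on `Q`
  let f : B →* MulAut Q := MulAut.conjNormal
  have hker : ∀ y, y ∈ H ⊔ P ↔ f y = 1 := by
    intro y
    rw [← hL.cen, Subgroup.mem_centralizer_iff]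
    constructor
    · intro h
      ext q
      have h1 := h q q.2
      change ((MulAut.conjNormal y q : Q) : B) = ((1 : MulAut Q) q : Q)
      rw [MulAut.conjNormal_apply, ← h1]
      simp
    · intro h q hq
      have h1 : ((f y ⟨q, hq⟩ : Q) : B) = q := by rw [h]; rfl
      change ((MulAut.conjNormal y ⟨q, hq⟩ : Q) : B) = q at h1
      rw [MulAut.conjNormal_apply] at h1
      change y * q * y⁻¹ = q at h1
      exact (mul_inv_eq_iff_eq_mul.1 h1).symm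
  set D : Subgroup B := P ⊓ S with hD
  set C : Subgroup B := H ⊔ D with hC0
  have hdec : ∀ y ∈ C, ∃ h ∈ H, ∃ d ∈ D, y = h * d := by
    intro y hy
    have h1 : y ∈ ((H : Set B) * (D : Set B)) := by
      rw [← Subgroup.normal_mul]
      exact hy
    obtain ⟨h, hh, d, hd, rfl⟩ := h1
    exact ⟨h, hh, d, hd, rfl⟩
  have hC : ∀ y, y ∈ C ↔ f y = 1 ∧ y ∈ S := by
    intro y
    rw [← hker]
    constructor
    · intro hy
      exact ⟨(sup_le_sup_left (inf_le_left : D ≤ P) H) hy,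
        (sup_le hHS (inf_le_right : D ≤ S)) hy⟩
    · rintro ⟨hy1, hy2⟩
      have h1 : y ∈ ((H : Set B) * (P : Set B)) := by
        rw [← Subgroup.normal_mul]
        exact hy1
      obtain ⟨h, hh, d, hd, rfl⟩ := h1
      have hdS : d ∈ S := by
        have h2 := S.mul_mem (S.inv_mem (hHS hh)) hy2
        have h3 : h⁻¹ * (h * d) = d := by group
        simpa [h3] using h2
      exact C.mul_mem ((le_sup_left : H ≤ C) hh) ((le_sup_right : D ≤ C) ⟨hd, hdS⟩)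
  have hCS : C ≤ S := fun y hy => ((hC y).1 hy).2
  -- a generator of `D`
  have hcP : IsCyclic P := hL.cyc
  have hcD : IsCyclic D := isCyclic_of_injective (Subgroup.inclusion (inf_le_left : D ≤ P))
    (Subgroup.inclusion_injective _)
  obtain ⟨x, hx⟩ := IsCyclic.exists_generator (α := D)
  have hxS : (x : B) ∈ S := x.2.2
  have hxC : (x : B) ∈ C := (le_sup_right : D ≤ C) x.2
  obtain ⟨k, hk⟩ : ∃ k : ℕ, (x : B) ^ (p ^ k) = 1 := by
    obtain ⟨k, hk⟩ := hL.pP ⟨x, x.2.1⟩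
    refine ⟨k, ?_⟩
    have := congrArg (fun z : P => (z : B)) hk
    simpa using this
  obtain ⟨A₀, hA₀⟩ := (hS x).1 hxS
  have hgen₁ : ∀ t ∈ C, ∃ (n : H) (i : ℤ), t = n * (x : B) ^ i := by
    intro t ht
    obtain ⟨h, hh, d, hd, rfl⟩ := hdec t ht
    obtain ⟨i, hi'⟩ := hx ⟨d, hd⟩
    refine ⟨⟨h, hh⟩, i, ?_⟩
    have h1 := congrArg (fun z : D => (z : B)) hi'
    have h2 : (x : B) ^ i = d := by simpa using h1
    rw [h2]
  obtain ⟨ν₁, h11, h12⟩ := ext_step H C ν hsch x A₀ hA₀ hgen₁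
  -- a generator of `S / C`
  have hcyc : IsCyclic (MulAut Q) := by
    have h1 : Fact (Nat.card Q).Prime := by rw [hL.cQ]; infer_instance
    have h2 : IsCyclic Q := isCyclic_of_prime_card (p := p) hL.cQ
    exact isCyclic_of_injective (IsCyclic.mulAutMulEquiv Q).toMonoidHom
      (IsCyclic.mulAutMulEquiv Q).injective
  let g : S →* MulAut Q := f.comp S.subtype
  obtain ⟨⟨_, t₀, rfl⟩, ht₀⟩ := IsCyclic.exists_generator (α := g.range)
  have hgen₂ : ∀ t ∈ S, ∃ (n : C) (i : ℤ), t = n * (t₀ : B) ^ i := by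
    intro t ht
    obtain ⟨i, hi'⟩ := ht₀ ⟨g ⟨t, ht⟩, ⟨t, ht⟩, rfl⟩
    have h1 := congrArg (fun z : g.range => (z : MulAut Q)) hi'
    have h2 : (g t₀) ^ i = g ⟨t, ht⟩ := by simpa using h1
    have h3 : (f t₀) ^ i = f t := h2
    have h4 : t * ((t₀ : B) ^ i)⁻¹ ∈ C := by
      rw [hC]
      refine ⟨?_, S.mul_mem ht (S.inv_mem (S.zpow_mem t₀.2 i))⟩
      rw [map_mul, map_inv, map_zpow, h3, mul_inv_cancel]
    exact ⟨⟨_, h4⟩, i, by simp⟩
  obtain ⟨A, hA⟩ := (hS t₀).1 t₀.2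
  -- the key step
  have hconj : ∀ y : B, y ∈ C ↔ (t₀ : B) * y * (t₀ : B)⁻¹ ∈ C := by
    intro y
    rw [hC, hC, map_mul, map_mul, map_inv, conj_eq_one_iff,
      S.mul_mem_cancel_right (S.inv_mem t₀.2), S.mul_mem_cancel_left t₀.2]
  have hx' : (t₀ : B) * x * (t₀ : B)⁻¹ ∈ C := (hconj x).1 hxC
  have hkey : A * ν₁ ⟨x, hxC⟩ * A⁻¹ = ν₁ ⟨_, hx'⟩ := by
    have e1 : ((t₀ : B) * x * (t₀ : B)⁻¹, A * ν₁ ⟨x, hxC⟩ * A⁻¹) ∈ Gp H ν := by
      have := (Gp H ν).mul_mem ((Gp H ν).mul_mem hA (h12 ⟨x, hxC⟩)) ((Gp H ν).inv_mem hA)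
      simpa using this
    have e2 : ((1 : B), (A * ν₁ ⟨x, hxC⟩ * A⁻¹) * (ν₁ ⟨_, hx'⟩)⁻¹) ∈ Gp H ν := by
      have := (Gp H ν).mul_mem e1 ((Gp H ν).inv_mem (h12 ⟨_, hx'⟩))
      simpa using this
    obtain ⟨c, hc⟩ := hsch _ e2
    have e3 : A * ν₁ ⟨x, hxC⟩ * A⁻¹ = sc c * ν₁ ⟨_, hx'⟩ := by
      rw [← hc]
      group
    have e4 : (A * ν₁ ⟨x, hxC⟩ * A⁻¹) ^ (p ^ k) = 1 := by
      rw [conj_pow, ← map_pow]
      have : (⟨x, hxC⟩ : C) ^ (p ^ k) = 1 := Subtype.ext hk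
      rw [this, map_one]
      group
    have e5 : (ν₁ ⟨_, hx'⟩) ^ (p ^ k) = 1 := by
      rw [← map_pow]
      have : (⟨_, hx'⟩ : C) ^ (p ^ k) = 1 := by
        apply Subtype.ext
        change ((t₀ : B) * x * (t₀ : B)⁻¹) ^ (p ^ k) = 1
        rw [conj_pow, hk]
        group
      rw [this, map_one]
    have e6 : (sc (c ^ (p ^ k)) : U ≃ₗ[F] U) = 1 := by
      rw [e3, sc_pow, e5, mul_one] at e4
      exact e4
    have e7 := root_one p k c (sc_inj _ e6)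
    rw [e3, e7, map_one, one_mul]
  have hA₁ : ((t₀ : B), A) ∈ Gp C ν₁ := by
    refine ⟨fun n => hconj n, fun n n' hn => ?_⟩
    change (n' : B) = (t₀ : B) * n * (t₀ : B)⁻¹ at hn
    change A * ν₁ n * A⁻¹ = ν₁ n'
    obtain ⟨h, i, hni⟩ := hgen₁ n n.2
    have hhC : (h : B) ∈ C := (le_sup_left : H ≤ C) h.2
    have hh' : (t₀ : B) * h * (t₀ : B)⁻¹ ∈ H := hHn.conj_mem _ h.2 _
    have hh'C : (t₀ : B) * h * (t₀ : B)⁻¹ ∈ C := (le_sup_left : H ≤ C) hh'
    have e1 : n = ⟨h, hhC⟩ * (⟨x, hxC⟩ : C) ^ i := by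
      apply Subtype.ext
      rw [hni]
      simp
    have e2 : n' = ⟨_, hh'C⟩ * (⟨_, hx'⟩ : C) ^ i := by
      apply Subtype.ext
      rw [hn, hni, Subgroup.coe_mul, Subgroup.coe_zpow]
      change (t₀ : B) * (h * (x : B) ^ i) * (t₀ : B)⁻¹ =
        ((t₀ : B) * h * (t₀ : B)⁻¹) * ((t₀ : B) * x * (t₀ : B)⁻¹) ^ i
      rw [conj_zpow]
      group
    have e3 : A * ν₁ ⟨h, hhC⟩ * A⁻¹ = ν₁ ⟨_, hh'C⟩ := by
      rw [h11 h ⟨h, hhC⟩ rfl, h11 ⟨_, hh'⟩ ⟨_, hh'C⟩ rfl]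
      exact (mem_Gp.1 hA).2 h ⟨_, hh'⟩ rfl
    rw [e1, e2, map_mul, map_mul, map_zpow, map_zpow, ← e3, ← hkey, conj_zpow]
    group
  have hsch₁ : ∀ e, ((1 : B), e) ∈ Gp C ν₁ → ∃ c : Fˣ, e = sc c := by
    intro e he
    refine hsch e ⟨fun n => by simp, fun n n' hn => ?_⟩
    have hnC : (n : B) ∈ C := (le_sup_left : H ≤ C) n.2
    have hnC' : (n' : B) ∈ C := (le_sup_left : H ≤ C) n'.2
    have := (mem_Gp.1 he).2 ⟨n, hnC⟩ ⟨n', hnC'⟩ hn
    rwa [h11 n ⟨n, hnC⟩ rfl, h11 n' ⟨n', hnC'⟩ rfl] at this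
  obtain ⟨ν₂, h21, -⟩ := ext_step C S ν₁ hsch₁ t₀ A hA₁ hgen₂
  refine ⟨S, (LinearEquiv.automorphismGroup.toLinearMapMonoidHom).comp ν₂, fun b => ?_,
    fun h t ht => ?_⟩
  · rw [hS]
    exact exists_congr fun A => mem_Gp_re μ b A
  · have hhC : (h : B) ∈ C := (le_sup_left : H ≤ C) h.2
    have e1 := h21 ⟨h, hhC⟩ t ht
    rw [h11 h ⟨h, hhC⟩ rfl] at e1
    ext u
    change ν₂ t u = μ h u
    rw [e1]
    rfl

end main

end Pool.Agent.K3h66.CY
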